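import Pool.Agent.MP_6574cc_co.H3.Final

/-!
Cancellative families of five element sets: the balanced complete five partite family is largest
when `n` is large or divisible by five.
-/

namespace Pool.Agent.Results.MP_6574cc_co.Cancel5

theorem result :
    ∃ n₀ : ℕ, ∀ n : ℕ, n₀ ≤ n ∨ 5 ∣ n →
      IsGreatest {m : ℕ | ∃ H : Finset (Finset (Fin n)), H ⊆ Finset.powersetCard 5 Finset.univ ∧
          (∀ A ∈ H, ∀ B ∈ H, ∀ C ∈ H, A ∪ B = A ∪ C → B = C) ∧ H.card = m}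
        (∏ i ∈ Finset.range 5, (n + i) / 5) := by
  obtain ⟨n₀, h⟩ := Pool.Agent.MP_6574cc_co.H3.bound'
  refine ⟨n₀, fun n hn => ⟨Pool.Agent.MP_6574cc_co.H3.build n, ?_⟩⟩
  rintro m ⟨H, a, b, rfl⟩
  exact h n hn H (Pool.Agent.MP_6574cc_co.H3.can_of a b)

end Pool.Agent.Results.MP_6574cc_co.Cancel5
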