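import Pool.Agent.MP_6574cc_co.H13.Main

/-!
`ex(n, A^k) / ex(n, S_k) = (1 + o(1)) max(1, e k ^ 3 / (2 n))`, uniformly as `k` and `n / k ^ 2`
tend to infinity.
-/

namespace Pool.Agent.Results.MP_6574cc_co.RatioFormula

open Pool.Agent.MP_6574cc_co in
theorem result (ε : ℝ) (hε : 0 < ε) :
    ∃ c : ℕ, ∀ k n a s : ℕ, c ≤ k → c * k ^ 2 ≤ n →
      IsGreatest {m : ℕ | ∃ H : Finset (Finset (Fin n)), H ⊆ Finset.powersetCard k Finset.univ ∧
        (∀ A ∈ H, ∀ B ∈ H, ∀ C ∈ H, (A ∩ B).card = k - 1 → symmDiff A B ⊆ C →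
          Disjoint C (A ∩ B) → False) ∧ H.card = m} a →
      IsGreatest {m : ℕ | ∃ G : Finset (Finset (Fin n)), G ⊆ Finset.powersetCard k Finset.univ ∧
        (∀ A ∈ G, ∀ B ∈ G, ∀ C ∈ G, (A ∩ B).card = k - 1 → symmDiff A B ⊆ C → False) ∧
        G.card = m} s →
      (1 - ε) * max 1 (Real.exp 1 * k ^ 3 / (2 * n)) * s ≤ a ∧
        (a : ℝ) ≤ (1 + ε) * max 1 (Real.exp 1 * k ^ 3 / (2 * n)) * s := by
  obtain ⟨t, ht⟩ : ∃ t, t = min ε 1 / 20 := ⟨_, rfl⟩
  have t0 : 0 < t := by rw [ht]; positivity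
  have t1 : t ≤ 1 / 20 := by linarith [min_le_right ε 1]
  have t2 : t ≤ ε / 20 := by linarith [min_le_left ε 1]
  obtain ⟨k₀, h⟩ := H13.af_up t0 t1
  refine ⟨k₀ + 2 + ⌈1 / t⌉₊, ?_⟩
  rintro k n a s hk hn ⟨⟨H, h1, h2, rfl⟩, ha⟩ ⟨⟨G, g1, g2, rfl⟩, hs⟩
  obtain ⟨k1, h3⟩ := h k (by omega)
  have n1 : 2 * k ^ 2 ≤ n := le_trans (Nat.mul_le_mul_right _ (by omega)) hn
  have n2 : 2 * k ≤ n := by nlinarith
  have k0 : (0 : ℝ) < k := by exact_mod_cast (show 0 < k by omega)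
  have n0 : (0 : ℝ) < n := by exact_mod_cast (show 0 < n by omega)
  have n3 : (k : ℝ) ^ 2 ≤ t * n := by
    have e1 : (⌈1 / t⌉₊ : ℝ) * k ^ 2 ≤ n := by
      exact_mod_cast le_trans (Nat.mul_le_mul_right _ (by omega)) hn
    have e2 := mul_le_mul_of_nonneg_right (Nat.le_ceil (1 / t)) (sq_nonneg (k : ℝ))
    rw [← div_le_iff₀' t0, ← one_div_mul_eq_div]
    linarith
  have a1 := (h3 (Fin n) Finset.univ (by simpa using n2.trans n.le_succ) H h1 (H69.af_of h1 h2)).2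
  have s1 := H13.sf_up t1 k1 (by simpa using n3) g1 (H13.sf_of g1 g2)
  obtain ⟨G', b1, b2, b3⟩ := H13.sf_lo t1 k1 (Finset.univ : Finset (Fin n)) (by simpa using n3)
  rw [Finset.card_univ, Fintype.card_fin] at a1 s1 b3
  have a2 : (G.card : ℝ) ≤ H.card := by
    exact_mod_cast ha ⟨G, g1, fun A a B b C c d e _ => g2 A a B b C c d e, rfl⟩
  have a3 : ((n - 1).choose (k - 1) : ℝ) ≤ H.card := by
    exact_mod_cast ha (H13.exists_star n k (by omega) (by omega))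
  have s2 : (G'.card : ℝ) ≤ G.card := by
    obtain ⟨r, rfl⟩ : ∃ r, k = r + 1 := ⟨k - 1, by omega⟩
    exact_mod_cast hs ⟨G', b1, H69.of_sf b1 b2, rfl⟩
  have u0 := H13.nu_pos n0 k
  have a4 : (1 - t) * (Real.exp 1 * k ^ 3 / (2 * n) *
      (2 * Real.exp (-1) / k ^ 2 * H13.nu n k)) ≤ H.card := by
    have e1 := H13.choose_ge (n := n) (by omega) k (by omega)
    have e2 : (k : ℝ) ^ 2 / (2 * n) ≤ t := by
      rw [div_le_iff₀ (by positivity)]
      nlinarith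
    rw [← mul_assoc (_ / _), ← H13.p_eq n0 k0, mul_left_comm]
    rw [H13.star_eq (by omega) (by omega)] at a3
    refine le_trans (mul_le_mul_of_nonneg_left (le_trans ?_ e1) (by positivity)) a3
    exact mul_le_mul_of_nonneg_right (by linarith) u0.le
  have g0 : 0 < 2 * Real.exp (-1) / k ^ 2 * H13.nu n k := by positivity
  have r0 : 0 < Real.exp 1 * k ^ 3 / (2 * n) := by positivity
  have s0 : (0 : ℝ) ≤ G.card := Nat.cast_nonneg _
  generalize 2 * Real.exp (-1) / k ^ 2 * H13.nu n k = g at *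
  generalize Real.exp 1 * k ^ 3 / (2 * n) = r at *
  constructor
  · rcases le_total 1 r with e | e
    · have e1 := mul_le_mul_of_nonneg_left s1 r0.le
      have e2 := mul_le_mul_of_nonneg_right (show 1 - ε ≤ 1 - 20 * t by linarith)
        (mul_nonneg r0.le s0)
      have e3 := mul_le_mul_of_nonneg_left e1 (show 0 ≤ 1 - 20 * t by linarith)
      have e4 := mul_le_mul_of_nonneg_right
        (show (1 - 20 * t) * (1 + 7 * t) ≤ 1 - t by nlinarith) (mul_pos r0 g0).le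
      rw [max_eq_right e]
      linarith
    · rw [max_eq_left e]
      nlinarith
  · have m0 : 0 < max 1 r := lt_max_of_lt_left one_pos
    have e1 := mul_le_mul_of_nonneg_left (b3.trans s2) (show 0 ≤ (1 + ε) * max 1 r by positivity)
    have e2 := mul_le_mul_of_nonneg_right
      (show 1 + 6 * t ≤ (1 + ε) * (1 - 3 * t) by nlinarith) (mul_pos m0 g0).le
    linarith

end Pool.Agent.Results.MP_6574cc_co.RatioFormula
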