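import Pool.Agent.MP_6574cc_co.H13.Range

/-!
`ex(n, A^k) = C(n - 1, k - 1)` from `n = 2 k - 1` up to `(e / 2 - o(1)) k ^ 3`, and no further.
-/

namespace Pool.Agent.Results.MP_6574cc_co.StarRange

theorem result (ε : ℝ) (hε : 0 < ε) :
    ∃ k₀ : ℕ, ∀ k n : ℕ, 2 ≤ k → 2 * k ≤ n + 1 →
      n + 2 * k ≤ k ^ 2 + 2 ∨ (k₀ ≤ k ∧ ε * k ^ 3 ≤ |(n : ℝ) - Real.exp 1 / 2 * k ^ 3|) →
      (IsGreatest {m : ℕ | ∃ H : Finset (Finset (Fin n)), H ⊆ Finset.powersetCard k Finset.univ ∧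
          (∀ A ∈ H, ∀ B ∈ H, ∀ C ∈ H, (A ∩ B).card = k - 1 → symmDiff A B ⊆ C →
            Disjoint C (A ∩ B) → False) ∧ H.card = m} ((n - 1).choose (k - 1)) ↔
        (n : ℝ) ≤ Real.exp 1 / 2 * k ^ 3) := by
  obtain ⟨k₀, h⟩ := Pool.Agent.MP_6574cc_co.H13.star_range ε hε
  refine ⟨k₀, fun k n k2 hn hr => ?_⟩
  obtain ⟨h1, h2⟩ := h k n k2 hn
  have e2 := Real.exp_one_gt_d9
  have k0 : (2 : ℝ) ≤ k := by exact_mod_cast k2
  have k3 : (0 : ℝ) < k ^ 3 := by positivity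
  rcases hr with hr | ⟨hk, hr⟩
  · refine iff_of_true (h1 (Or.inl hr)) ?_
    have h3 : (n : ℝ) + 2 * k ≤ k ^ 2 + 2 := by exact_mod_cast hr
    have h4 : (k : ℝ) ^ 2 ≤ k ^ 3 := by nlinarith
    nlinarith
  · rcases le_abs.1 hr with h3 | h3
    · refine iff_of_false (fun h4 => ?_) (by nlinarith [mul_pos hε k3])
      obtain ⟨G, g1, g2, g3⟩ := h2 hk (by linarith)
      exact absurd (h4.2 ⟨G, g1, fun A a B b C c d e _ => g2 A a B b C c d e, rfl⟩) (not_le.2 g3)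
    · exact iff_of_true (h1 (Or.inr ⟨hk, by linarith⟩)) (by nlinarith [mul_pos hε k3])

end Pool.Agent.Results.MP_6574cc_co.StarRange
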