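import Mathlib
import Pool.Agent.MP_6574cc_co.H69.Final

/-!
`ex(n, A^k) ≤ (1 + c / n) ex(n, S_k)` for `n > n_k`, with one constant `c` for all `k`.
-/

namespace Pool.Agent.Results.MP_6574cc_co.UniformRatio

theorem result :
    ∃ c : ℝ, ∀ k : ℕ, 2 ≤ k → ∃ n₀ : ℕ, ∀ n : ℕ, n₀ < n →
      ∀ H : Finset (Finset (Fin n)), H ⊆ Finset.powersetCard k Finset.univ →
        (∀ A ∈ H, ∀ B ∈ H, ∀ C ∈ H, (A ∩ B).card = k - 1 → symmDiff A B ⊆ C →
            Disjoint C (A ∩ B) → False) →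
        ∃ G : Finset (Finset (Fin n)), G ⊆ Finset.powersetCard k Finset.univ ∧
          (∀ A ∈ G, ∀ B ∈ G, ∀ C ∈ G, (A ∩ B).card = k - 1 → symmDiff A B ⊆ C → False) ∧
          (H.card : ℝ) ≤ (1 + c / n) * G.card := by
  obtain ⟨c, hc, h⟩ := Pool.Agent.MP_6574cc_co.H69.uniform
  refine ⟨c, fun k hk => ?_⟩
  obtain ⟨r, rfl⟩ : ∃ r, k = r + 1 := ⟨k - 1, by omega⟩
  by_cases hr : 2 ≤ r
  · obtain ⟨n₀, h⟩ := h r hr
    refine ⟨n₀, fun n hn H hH hA => ?_⟩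
    obtain ⟨G, h1, h2, h3⟩ := h (Fin n) Finset.univ (by simpa using hn) H hH
      (Pool.Agent.MP_6574cc_co.H69.af_of hH hA)
    exact ⟨G, h1, Pool.Agent.MP_6574cc_co.H69.of_sf h1 h2, by simpa using h3⟩
  · obtain rfl : r = 1 := by omega
    refine ⟨0, fun n _ H hH hA => ⟨H, hH, Pool.Agent.MP_6574cc_co.H69.of_sf hH
      (Pool.Agent.MP_6574cc_co.H69.sf_two hH (Pool.Agent.MP_6574cc_co.H69.af_of hH hA)), ?_⟩⟩
    exact le_mul_of_one_le_left (Nat.cast_nonneg _) (le_add_of_nonneg_right (by positivity))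

end Pool.Agent.Results.MP_6574cc_co.UniformRatio
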